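import Pool.Agent.Lib.MP_ef2672_gt_Sym.Gram

/-!
The index of (fixed lattice) + (its complement) for an automorphism of prime order.
-/

namespace Pool.Agent.Lib.MP_ef2672_gt_Sym

open Polynomial

/-- The index of the image of an injective endomorphism. -/
lemma index_range {V : Type*} [AddCommGroup V] [Module.Free ℤ V] [Module.Finite ℤ V]
    (g : V →ₗ[ℤ] V) (hg : Function.Injective g) :
    (LinearMap.range g).toAddSubgroup.index = (LinearMap.det g).natAbs := by
  have h := Submodule.natAbs_det_equiv (LinearMap.range g) (LinearEquiv.ofInjective g hg)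
  have h2 : (LinearMap.range g).subtype ∘ₗ AddMonoidHom.toIntLinearMap
      ((LinearEquiv.ofInjective g hg : V ≃ₗ[ℤ] LinearMap.range g) : V →+ LinearMap.range g) = g := by
    ext x
    rfl
  rw [h2] at h
  rw [h]
  rfl

/-- Determinant of `1 - v` for an endomorphism killed by the `p`-th cyclotomic polynomial. -/
lemma det_one_sub {V : Type*} [AddCommGroup V] [Module.Free ℤ V] [Module.Finite ℤ V]
    {p : ℕ} (hp : p.Prime) (v : V →ₗ[ℤ] V)
    (hv : ∑ i ∈ Finset.range p, v ^ i = 0) :
    (LinearMap.det (1 - v)).natAbs ^ (p - 1) = p ^ Module.finrank ℤ V := by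
  have : Fact p.Prime := ⟨hp⟩
  let D : ℤ[X] →* ℤ := (LinearMap.det : (V →ₗ[ℤ] V) →* ℤ).comp
    (aeval v : ℤ[X] →ₐ[ℤ] (V →ₗ[ℤ] V)).toRingHom.toMonoidHom
  have hD : ∀ P : ℤ[X], D P = LinearMap.det (aeval v P) := fun P => rfl
  have hPhi : aeval v (cyclotomic p ℤ) = 0 := by
    rw [cyclotomic_prime, map_sum]
    simpa using hv
  have hvp : v ^ p = 1 := by
    have h1 : (cyclotomic p ℤ) ∣ (X ^ p - 1 : ℤ[X]) := cyclotomic.dvd_X_pow_sub_one p ℤ
    obtain ⟨q, hq⟩ := h1
    have h2 : aeval v (X ^ p - 1 : ℤ[X]) = 0 := by rw [hq, map_mul, hPhi, zero_mul]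
    simpa [sub_eq_zero] using h2
  have hQ : cyclotomic p ℤ ∣ (∏ k ∈ Finset.range (p - 1), (1 - X ^ (k + 1)) - C (p : ℤ)) := by
    have hμ := Complex.isPrimitiveRoot_exp p hp.ne_zero
    rw [cyclotomic_eq_minpoly hμ hp.pos]
    refine minpoly.isIntegrallyClosed_dvd (hμ.isIntegral hp.pos) ?_
    have hμ' : IsPrimitiveRoot (Complex.exp (2 * Real.pi * Complex.I / p)) ((p - 1) + 1) := by
      rw [Nat.sub_add_cancel hp.one_le]; exact hμ
    have h3 := hμ'.prod_one_sub_pow_eq_order
    rw [map_sub, map_prod]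
    simp only [map_sub, map_one, map_pow, aeval_X]
    rw [h3]
    have : (((p - 1 : ℕ) : ℂ) + 1) = p := by
      have := hp.one_le
      push_cast [Nat.cast_sub this]
      ring
    rw [this]
    simp
  have hprod : aeval v (∏ k ∈ Finset.range (p - 1), (1 - X ^ (k + 1)) : ℤ[X]) =
      aeval v (C (p : ℤ)) := by
    obtain ⟨q, hq⟩ := hQ
    have h2 : aeval v ((∏ k ∈ Finset.range (p - 1), (1 - X ^ (k + 1)) - C (p : ℤ)) : ℤ[X]) = 0 := by
      rw [hq, map_mul, hPhi, zero_mul]
    rw [map_sub, sub_eq_zero] at h2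
    exact h2
  have hfac : ∀ k ∈ Finset.range (p - 1),
      (D (1 - X ^ (k + 1))).natAbs = (LinearMap.det (1 - v)).natAbs := by
    intro k hk
    have hk1 : k + 1 < p := by
      have := Finset.mem_range.1 hk
      omega
    have hD1 : D (1 - X) = LinearMap.det (1 - v) := by
      rw [hD]; simp
    rw [← hD1]
    refine Nat.dvd_antisymm ?_ ?_
    · -- use the inverse of k+1 mod p
      have hcop : Nat.Coprime (k + 1) p := (Nat.coprime_comm.1
        ((Nat.Prime.coprime_iff_not_dvd hp).2 (fun h => by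
          have := Nat.le_of_dvd (Nat.succ_pos k) h
          omega)))
      obtain ⟨j, -, hj⟩ := Nat.exists_mul_mod_eq_one_of_coprime hcop hp.one_lt
      have h4 : D (1 - (X ^ (k + 1)) ^ j) = D (1 - X) := by
        rw [hD, hD]
        congr 1
        simp only [map_sub, map_one, map_pow, aeval_X]
        rw [← pow_mul]
        congr 1
        rw [← Nat.div_add_mod ((k + 1) * j) p, hj, pow_add, pow_mul, hvp, one_pow, one_mul, pow_one]
      rw [Int.natAbs_dvd_natAbs, ← h4]
      refine map_dvd D ?_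
      have := sub_dvd_pow_sub_pow (1 : ℤ[X]) (X ^ (k + 1)) j
      rwa [one_pow] at this
    · rw [Int.natAbs_dvd_natAbs]
      refine map_dvd D ?_
      have := sub_dvd_pow_sub_pow (1 : ℤ[X]) X (k + 1)
      rwa [one_pow] at this
  have hfinal := congrArg LinearMap.det hprod
  have h5 : D (∏ k ∈ Finset.range (p - 1), (1 - X ^ (k + 1))) = (p : ℤ) ^ Module.finrank ℤ V := by
    rw [hD, hfinal, aeval_C]
    have : (algebraMap ℤ (V →ₗ[ℤ] V)) (p : ℤ) = (p : ℤ) • (1 : V →ₗ[ℤ] V) := by
      rw [Algebra.algebraMap_eq_smul_one]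
    rw [this, LinearMap.det_smul]
    simp
  rw [map_prod] at h5
  have h6 := congrArg Int.natAbs h5
  rw [Int.natAbs_pow, Int.natAbs_natCast] at h6
  rw [← h6]
  have h7 : (∏ x ∈ Finset.range (p - 1), D (1 - X ^ (x + 1))).natAbs =
      ∏ x ∈ Finset.range (p - 1), (D (1 - X ^ (x + 1))).natAbs :=
    map_prod Int.natAbsHom _ _
  rw [h7, Finset.prod_congr rfl hfac, Finset.prod_const, Finset.card_range]

/-- The real bilinear form of the lattice `A ℤⁿ` on integer vectors. -/
noncomputable def bil {n : ℕ} (A : Matrix (Fin n) (Fin n) ℝ) (x y : Fin n → ℤ) : ℝ :=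
  dotProduct (A.mulVec (fun j => (x j : ℝ))) (A.mulVec (fun j => (y j : ℝ)))

lemma cast_mulVec {n : ℕ} (U : Matrix (Fin n) (Fin n) ℤ) (x : Fin n → ℤ) :
    (fun j => ((U.mulVec x) j : ℝ)) = (U.map (Int.cast : ℤ → ℝ)).mulVec (fun j => (x j : ℝ)) := by
  ext i
  simp [Matrix.mulVec, dotProduct]

lemma bil_add_right {n : ℕ} (A : Matrix (Fin n) (Fin n) ℝ) (x y z : Fin n → ℤ) :
    bil A x (y + z) = bil A x y + bil A x z := by
  unfold bil
  have : (fun j => (((y + z) j : ℤ) : ℝ)) = (fun j => (y j : ℝ)) + (fun j => (z j : ℝ)) := by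
    ext j; simp
  rw [this, Matrix.mulVec_add, dotProduct_add]

lemma bil_comm {n : ℕ} (A : Matrix (Fin n) (Fin n) ℝ) (x y : Fin n → ℤ) :
    bil A x y = bil A y x := by
  unfold bil; rw [dotProduct_comm]

lemma bil_zero_right {n : ℕ} (A : Matrix (Fin n) (Fin n) ℝ) (x : Fin n → ℤ) :
    bil A x 0 = 0 := by
  have := bil_add_right A x 0 0
  rw [add_zero] at this
  linarith

lemma bil_sum_right {n : ℕ} {ι : Type*} (s : Finset ι) (A : Matrix (Fin n) (Fin n) ℝ)
    (x : Fin n → ℤ) (y : ι → Fin n → ℤ) :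
    bil A x (∑ i ∈ s, y i) = ∑ i ∈ s, bil A x (y i) := by
  classical
  induction s using Finset.induction_on with
  | empty => simp [bil_zero_right]
  | insert a s ha ih => rw [Finset.sum_insert ha, Finset.sum_insert ha, bil_add_right, ih]

/-- Splitting of `ℤⁿ` by an automorphism of prime order which preserves the form of `A`. -/
theorem exists_splitting {n p : ℕ} (hp : p.Prime) (A : Matrix (Fin n) (Fin n) ℝ)
    (U : Matrix (Fin n) (Fin n) ℤ) (hU : U ^ p = 1)
    (hiso : (A * U.map (Int.cast : ℤ → ℝ)).transpose * (A * U.map (Int.cast : ℤ → ℝ)) =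
      A.transpose * A) (k : ℕ)
    (hk : Module.finrank ℤ (LinearMap.ker (Matrix.toLin' U - 1)) = k) :
    k ≤ n ∧ ∃ (B : Matrix (Fin n) (Fin n) ℤ) (f : Fin n → Fin 2), B.det ≠ 0 ∧
      Fintype.card {i // f i = 0} = k ∧ Fintype.card {i // f i = 1} = n - k ∧
      (∀ i j, f i ≠ f j → ((A * B.map (Int.cast : ℤ → ℝ)).transpose *
        (A * B.map (Int.cast : ℤ → ℝ))) i j = 0) ∧
      B.det.natAbs ∣ p ^ k ∧ B.det.natAbs ^ (p - 1) ∣ p ^ (n - k) := by
  classical
  have hp0 : (p : ℤ) ≠ 0 := by exact_mod_cast hp.ne_zero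
  set u : (Fin n → ℤ) →ₗ[ℤ] (Fin n → ℤ) := Matrix.toLin' U with hu
  have hup : u ^ p = 1 := by
    rw [hu, ← Matrix.toLin'_pow, hU, Matrix.toLin'_one]
    rfl
  set T : (Fin n → ℤ) →ₗ[ℤ] (Fin n → ℤ) := ∑ i ∈ Finset.range p, u ^ i with hT
  have hT1 : T * (u - 1) = 0 := by rw [hT, geom_sum_mul, hup, sub_self]
  have hT2 : (u - 1) * T = 0 := by rw [hT, mul_geom_sum, hup, sub_self]
  set M := LinearMap.ker (u - 1) with hM
  set N := LinearMap.ker T with hN
  have hMu : ∀ x ∈ M, u x = x := by
    intro x hx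
    have := LinearMap.mem_ker.1 hx
    rw [LinearMap.sub_apply, Module.End.one_apply, sub_eq_zero] at this
    exact this
  have hMpow : ∀ x ∈ M, ∀ i : ℕ, (u ^ i) x = x := by
    intro x hx i
    induction i with
    | zero => simp
    | succ i ih => rw [pow_succ, Module.End.mul_apply, hMu x hx, ih]
  have hMT : ∀ x ∈ M, T x = (p : ℤ) • x := by
    intro x hx
    rw [hT, LinearMap.sum_apply, Finset.sum_congr rfl fun i _ => hMpow x hx i]
    simp
  have hTM : ∀ x, T x ∈ M := by
    intro x
    rw [hM, LinearMap.mem_ker, ← Module.End.mul_apply, hT2]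
    rfl
  have hUN : ∀ x, (1 - u) x ∈ N := by
    intro x
    rw [hN, LinearMap.mem_ker, ← Module.End.mul_apply]
    have : T * (1 - u) = 0 := by
      rw [← neg_sub u 1, mul_neg, hT1, neg_zero]
    rw [this]
    rfl
  have hdisj : ∀ x, x ∈ M → x ∈ N → x = 0 := by
    intro x hx hx2
    have h1 := hMT x hx
    rw [LinearMap.mem_ker.1 hx2] at h1
    exact (smul_eq_zero.1 h1.symm).resolve_left hp0
  have hD : Disjoint M N := by
    rw [Submodule.disjoint_def]
    exact hdisj
  -- ranks
  have hrank : Module.finrank ℤ M + Module.finrank ℤ N = n := by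
    have h1 := Submodule.finrank_quotient_add_finrank (LinearMap.ker T)
    rw [Module.finrank_fin_fun, T.quotKerEquivRange.finrank_eq] at h1
    have h2 : Module.finrank ℤ (LinearMap.range T) = Module.finrank ℤ M := by
      apply le_antisymm
      · apply Submodule.finrank_mono
        rintro _ ⟨x, rfl⟩
        exact hTM x
      · let φ : M →ₗ[ℤ] LinearMap.range T := T.rangeRestrict ∘ₗ M.subtype
        apply LinearMap.finrank_le_finrank_of_injective (f := φ)
        intro x y hxy
        have h3 : T x = T y := congrArg Subtype.val hxy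
        rw [hMT x x.2, hMT y y.2] at h3
        exact Subtype.ext (smul_right_injective _ hp0 h3)
    rw [h2] at h1
    exact h1
  have hkn : k ≤ n := by omega
  have hm : Module.finrank ℤ N = n - k := by omega
  refine ⟨hkn, ?_⟩
  -- bases
  let bM : Module.Basis (Fin k) ℤ M := (Module.finBasis ℤ M).reindex (finCongr hk)
  let bN : Module.Basis (Fin (n - k)) ℤ N := (Module.finBasis ℤ N).reindex (finCongr hm)
  let e : Fin n ≃ Fin k ⊕ Fin (n - k) :=
    (finCongr (by omega : n = k + (n - k))).trans finSumFinEquiv.symm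
  let w : Fin k ⊕ Fin (n - k) → (Fin n → ℤ) :=
    Sum.elim (fun i => (bM i : Fin n → ℤ)) (fun i => (bN i : Fin n → ℤ))
  have hspM : Submodule.span ℤ (Set.range fun i => (bM i : Fin n → ℤ)) = M := by
    have h1 : (Set.range fun i => (bM i : Fin n → ℤ)) = M.subtype '' Set.range bM := by
      rw [← Set.range_comp]; rfl
    rw [h1, Submodule.span_image, bM.span_eq, Submodule.map_top, Submodule.range_subtype]
  have hspN : Submodule.span ℤ (Set.range fun i => (bN i : Fin n → ℤ)) = N := by
    have h1 : (Set.range fun i => (bN i : Fin n → ℤ)) = N.subtype '' Set.range bN := by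
      rw [← Set.range_comp]; rfl
    rw [h1, Submodule.span_image, bN.span_eq, Submodule.map_top, Submodule.range_subtype]
  have hli : LinearIndependent ℤ w := by
    refine LinearIndependent.sum_type ?_ ?_ ?_
    · exact bM.linearIndependent.map' M.subtype (Submodule.ker_subtype M)
    · exact bN.linearIndependent.map' N.subtype (Submodule.ker_subtype N)
    · rw [hspM, hspN]; exact hD
  have hspan : Submodule.span ℤ (Set.range w) = M ⊔ N := by
    rw [Set.Sum.elim_range, Submodule.span_union, hspM, hspN]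
  let bH0 : Module.Basis (Fin k ⊕ Fin (n - k)) ℤ (Submodule.span ℤ (Set.range w)) :=
    Module.Basis.span hli
  let bH : Module.Basis (Fin n) ℤ (Submodule.span ℤ (Set.range w)) := bH0.reindex e.symm
  have hbH : ∀ i, (bH i : Fin n → ℤ) = w (e i) := by
    intro i
    simp only [bH, Module.Basis.reindex_apply, Equiv.symm_symm, bH0]
    rw [Module.Basis.span_apply]
  have hindex := Submodule.natAbs_det_basis_change (Pi.basisFun ℤ (Fin n))
    (Submodule.span ℤ (Set.range w)) bH
  let B : Matrix (Fin n) (Fin n) ℤ := Matrix.of fun i j => w (e j) i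
  have hBdet : (Pi.basisFun ℤ (Fin n)).det ((↑) ∘ bH) = B.det := by
    rw [Pi.basisFun_det_apply, ← Matrix.det_transpose B]
    congr 1
    ext i j
    simp [B, hbH]
  rw [hBdet] at hindex
  have hindex' : B.det.natAbs = (M ⊔ N).toAddSubgroup.index := by
    rw [hindex, hspan]; rfl
  -- first divisibility
  have hdvd1 : B.det.natAbs ∣ p ^ k := by
    let φ : (Fin n → ℤ) →ₗ[ℤ] M := T.codRestrict M hTM
    let g : M →ₗ[ℤ] M := (p : ℤ) • LinearMap.id
    have hg : Function.Injective g := by
      intro x y hxy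
      exact smul_right_injective M hp0 hxy
    have h1 : (M ⊔ N).toAddSubgroup.map φ.toAddMonoidHom = (LinearMap.range g).toAddSubgroup := by
      ext y
      constructor
      · rintro ⟨x, hx, rfl⟩
        obtain ⟨a, ha, b, hb, rfl⟩ := Submodule.mem_sup.1 hx
        refine ⟨⟨a, ha⟩, ?_⟩
        apply Subtype.ext
        show (p : ℤ) • a = T (a + b)
        rw [map_add, hMT a ha, LinearMap.mem_ker.1 hb, add_zero]
      · rintro ⟨x, rfl⟩
        refine ⟨x, Submodule.mem_sup_left x.2, ?_⟩
        apply Subtype.ext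
        show T x = (p : ℤ) • (x : Fin n → ℤ)
        exact hMT x x.2
    have h2 : φ.toAddMonoidHom.ker ≤ (M ⊔ N).toAddSubgroup := by
      intro x hx
      apply Submodule.mem_sup_right
      have : φ x = 0 := hx
      exact LinearMap.mem_ker.2 (congrArg Subtype.val this)
    have h3 := AddSubgroup.dvd_index_map (H := (M ⊔ N).toAddSubgroup) h2
    rw [h1, index_range g hg, LinearMap.det_smul, LinearMap.det_id, mul_one, hk] at h3
    rw [hindex']
    simpa [Int.natAbs_pow] using h3
  -- second divisibility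
  have hdvd2 : B.det.natAbs ^ (p - 1) ∣ p ^ (n - k) := by
    let φ : (Fin n → ℤ) →ₗ[ℤ] N := (1 - u).codRestrict N hUN
    have huN : ∀ x ∈ N, u x ∈ N := by
      intro x hx
      have h1 := hUN x
      rw [LinearMap.sub_apply, Module.End.one_apply] at h1
      have := N.sub_mem hx h1
      rwa [sub_sub_cancel] at this
    let v : N →ₗ[ℤ] N := u.restrict huN
    have hvpow : ∀ (i : ℕ) (x : N), ((v ^ i) x : Fin n → ℤ) = (u ^ i) x := by
      intro i x
      induction i with
      | zero => simp
      | succ i ih => rw [pow_succ', pow_succ', Module.End.mul_apply, Module.End.mul_apply, ← ih]; rfl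
    have hv : ∑ i ∈ Finset.range p, v ^ i = 0 := by
      ext1 x
      apply Subtype.ext
      rw [LinearMap.sum_apply, AddSubmonoidClass.coe_finsetSum,
        Finset.sum_congr rfl fun i _ => hvpow i x, ← LinearMap.sum_apply]
      exact LinearMap.mem_ker.1 x.2
    let g : N →ₗ[ℤ] N := 1 - v
    have hgx : ∀ x : N, (g x : Fin n → ℤ) = (1 - u) x := fun x => rfl
    have hg : Function.Injective g := by
      rw [injective_iff_map_eq_zero]
      intro x hx
      apply Subtype.ext
      refine hdisj x ?_ x.2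
      rw [hM, LinearMap.mem_ker]
      have h1 : (1 - u) (x : Fin n → ℤ) = 0 := by rw [← hgx, hx]; rfl
      rw [LinearMap.sub_apply, Module.End.one_apply, sub_eq_zero] at h1
      rw [LinearMap.sub_apply, Module.End.one_apply, sub_eq_zero]
      exact h1.symm
    have h1 : (M ⊔ N).toAddSubgroup.map φ.toAddMonoidHom = (LinearMap.range g).toAddSubgroup := by
      ext y
      constructor
      · rintro ⟨x, hx, rfl⟩
        obtain ⟨a, ha, b, hb, rfl⟩ := Submodule.mem_sup.1 hx
        refine ⟨⟨b, hb⟩, ?_⟩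
        apply Subtype.ext
        show (1 - u) b = (1 - u) (a + b)
        have : (1 - u) a = 0 := by
          rw [LinearMap.sub_apply, Module.End.one_apply, hMu a ha, sub_self]
        rw [map_add, this, zero_add]
      · rintro ⟨x, rfl⟩
        exact ⟨x, Submodule.mem_sup_right x.2, Subtype.ext rfl⟩
    have h2 : φ.toAddMonoidHom.ker ≤ (M ⊔ N).toAddSubgroup := by
      intro x hx
      apply Submodule.mem_sup_left
      have h3 : φ x = 0 := hx
      have h4 : (1 - u) x = 0 := congrArg Subtype.val h3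
      rw [LinearMap.sub_apply, Module.End.one_apply, sub_eq_zero] at h4
      rw [hM, LinearMap.mem_ker, LinearMap.sub_apply, Module.End.one_apply, sub_eq_zero]
      exact h4.symm
    have h3 := AddSubgroup.dvd_index_map (H := (M ⊔ N).toAddSubgroup) h2
    rw [h1, index_range g hg] at h3
    have h4 := det_one_sub hp v hv
    rw [hm] at h4
    rw [hindex', ← h4]
    exact pow_dvd_pow_of_dvd h3 _
  have hBne : B.det ≠ 0 := by
    intro h0
    rw [h0, Int.natAbs_zero] at hdvd1
    exact (pow_pos hp.pos k).ne' (Nat.eq_zero_of_zero_dvd hdvd1)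
  -- orthogonality
  have hinv : ∀ x y, bil A (u x) (u y) = bil A x y := by
    intro x y
    have h1 : ∀ z w' : Fin n → ℤ, bil A z w' = dotProduct (fun j => (z j : ℝ))
        ((A.transpose * A).mulVec (fun j => (w' j : ℝ))) := by
      intro z w'
      unfold bil
      rw [← Matrix.mulVec_mulVec, Matrix.dotProduct_mulVec _ A.transpose, Matrix.vecMul_transpose]
    rw [h1 x y, ← hiso, ← Matrix.mulVec_mulVec, Matrix.dotProduct_mulVec _ (Matrix.transpose _),
      Matrix.vecMul_transpose, ← Matrix.mulVec_mulVec, ← Matrix.mulVec_mulVec,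
      ← cast_mulVec, ← cast_mulVec]
    rfl
  have hinvpow : ∀ (i : ℕ) x y, bil A ((u ^ i) x) ((u ^ i) y) = bil A x y := by
    intro i
    induction i with
    | zero => intro x y; simp
    | succ i ih => intro x y; rw [pow_succ', Module.End.mul_apply, Module.End.mul_apply, hinv, ih]
  have hMN : ∀ x y, x ∈ M → y ∈ N → bil A x y = 0 := by
    intro x y hx hy
    have h1 : bil A x (T y) = (p : ℝ) * bil A x y := by
      rw [hT, LinearMap.sum_apply, bil_sum_right]
      have : ∀ i ∈ Finset.range p, bil A x ((u ^ i) y) = bil A x y := by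
        intro i _
        conv_lhs => rw [← hMpow x hx i]
        exact hinvpow i x y
      rw [Finset.sum_congr rfl this]
      simp
    rw [LinearMap.mem_ker.1 hy, bil_zero_right] at h1
    have hp0' : (p : ℝ) ≠ 0 := by exact_mod_cast hp.ne_zero
    exact (mul_eq_zero.1 h1.symm).resolve_left hp0'
  have hentry : ∀ i j, ((A * B.map (Int.cast : ℤ → ℝ)).transpose *
      (A * B.map (Int.cast : ℤ → ℝ))) i j = bil A (w (e i)) (w (e j)) := by
    intro i j
    unfold bil
    simp only [Matrix.mul_apply, Matrix.transpose_apply, dotProduct, Matrix.mulVec,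
      Matrix.map_apply, B, Matrix.of_apply]
  let f : Fin n → Fin 2 := fun i => Sum.elim (fun _ => 0) (fun _ => 1) (e i)
  refine ⟨B, f, hBne, ?_, ?_, ?_, hdvd1, hdvd2⟩
  · rw [Fintype.card_subtype, Finset.card_filter, ← e.symm.sum_comp, Fintype.sum_sum_type]
    simp [f]
  · rw [Fintype.card_subtype, Finset.card_filter, ← e.symm.sum_comp, Fintype.sum_sum_type]
    simp [f]
  · intro i j hij
    rw [hentry]
    rcases hi : e i with a | a <;> rcases hj : e j with b | b
    · exact absurd (by simp [f, hi, hj]) hij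
    · exact hMN _ _ (bM a).2 (bN b).2
    · rw [bil_comm]; exact hMN _ _ (bM b).2 (bN a).2
    · exact absurd (by simp [f, hi, hj]) hij

end Pool.Agent.Lib.MP_ef2672_gt_Sym
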