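import Pool.Agent.Lib.MP_ef2672_gt_Sym.Index
import Pool.Agent.Lib.MP_ef2672_gt_Tauber.Super

/-!
Entropy bounds for splittings of near-optimal lattices.
-/

namespace Pool.Agent.Lib.MP_ef2672_gt_Sym

open Pool.Agent.Lib.MP_ef2672_gt_Tauber Filter Topology

lemma c_bddUnder : IsBoundedUnder (· ≤ ·) atTop c :=
  isBoundedUnder_of ⟨1, c_le_one⟩

lemma limsup_pos : 0 < limsup c atTop := by
  have h1 : (1 : ℝ) / 576 ≤ limsup c atTop := by
    refine le_limsup_of_frequently_le ?_ c_bddUnder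
    refine Eventually.frequently ?_
    filter_upwards [eventually_gt_atTop 0] with n hn
    have hn0 : (0 : ℝ) < n := by exact_mod_cast hn
    unfold c
    rw [le_div_iff₀ hn0]
    have := gamma_ge hn
    linarith
  linarith

/-- `γ_k^k ≤ C ((l+η)k)^k` for all `k`. -/
lemma gamma_pow_le {η : ℝ} (hη : 0 < η) : ∃ C : ℝ, 1 ≤ C ∧ ∀ k : ℕ,
    gamma k ^ k ≤ C * ((limsup c atTop + η) * k) ^ k := by
  set l := limsup c atTop with hl
  have hl0 : 0 < l := limsup_pos
  have h1 : ∀ᶠ k in atTop, c k < l + η :=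
    eventually_lt_of_limsup_lt (by rw [← hl]; linarith) c_bddUnder
  obtain ⟨k0, hk0⟩ := eventually_atTop.1 h1
  set q : ℝ := max 1 (1 / (l + η)) with hq
  have hq1 : 1 ≤ q := le_max_left _ _
  have hq2 : 1 ≤ q * (l + η) := by
    have : 1 / (l + η) ≤ q := le_max_right _ _
    rwa [div_le_iff₀ (by linarith)] at this
  refine ⟨q ^ k0, one_le_pow₀ hq1, fun k => ?_⟩
  rcases Nat.eq_zero_or_pos k with rfl | hk
  · simp only [pow_zero, mul_one]; exact one_le_pow₀ hq1
  have hkr : (0 : ℝ) < k := by exact_mod_cast hk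
  rcases le_or_gt k0 k with h | h
  · have h2 := hk0 k h
    unfold c at h2
    rw [div_lt_iff₀ hkr] at h2
    calc gamma k ^ k ≤ ((l + η) * k) ^ k := pow_le_pow_left₀ (gamma_nonneg k) h2.le k
      _ ≤ q ^ k0 * ((l + η) * k) ^ k :=
        le_mul_of_one_le_left (by positivity) (one_le_pow₀ hq1)
  · calc gamma k ^ k ≤ (k : ℝ) ^ k := pow_le_pow_left₀ (gamma_nonneg k) (gamma_le hk) k
      _ ≤ (q * ((l + η) * k)) ^ k := by
        refine pow_le_pow_left₀ hkr.le ?_ k
        nlinarith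
      _ = q ^ k * ((l + η) * k) ^ k := by rw [mul_pow]
      _ ≤ q ^ k0 * ((l + η) * k) ^ k :=
        mul_le_mul_of_nonneg_right (pow_le_pow_right₀ hq1 h.le) (by positivity)

lemma mul_binEntropy {n k : ℕ} (hn : 0 < n) (hk : k ≤ n) :
    (n : ℝ) * Real.binEntropy ((k : ℝ) / n) =
      n * Real.log n - k * Real.log k - ((n - k : ℕ) : ℝ) * Real.log ((n - k : ℕ) : ℝ) := by
  have hn0 : (0 : ℝ) < n := by exact_mod_cast hn
  rcases Nat.eq_zero_or_pos k with rfl | hk0
  · simp
  rcases hk.eq_or_lt with rfl | hkn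
  · simp [div_self hn0.ne']
  have hk0' : (0 : ℝ) < k := by exact_mod_cast hk0
  have hnk : (0 : ℝ) < ((n - k : ℕ) : ℝ) := by exact_mod_cast Nat.sub_pos_of_lt hkn
  have h1 : (1 : ℝ) - k / n = ((n - k : ℕ) : ℝ) / n := by
    rw [Nat.cast_sub hk]; field_simp
  rw [Real.binEntropy, h1, inv_div, inv_div, Real.log_div hn0.ne' hk0'.ne',
    Real.log_div hn0.ne' hnk.ne']
  have h2 : ((n - k : ℕ) : ℝ) = n - k := Nat.cast_sub hk
  field_simp
  rw [h2]
  ring

/-- The entropy bound for two mutually orthogonal sublattices. -/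
theorem entropy_le (ε : ℝ) (hε : 0 < ε) : ∃ δ : ℝ, 0 < δ ∧ ∀ᶠ n : ℕ in atTop,
    ∀ (A : Matrix (Fin n) (Fin n) ℝ) (k : ℕ) (D : ℝ), k ≤ n → 1 ≤ D →
      (limsup c atTop - δ) * n ≤ inv A →
      inv A ^ n ≤ D ^ 2 * (gamma k ^ k * gamma (n - k) ^ (n - k)) →
      n * (Real.binEntropy ((k : ℝ) / n) - ε) ≤ 2 * Real.log D := by
  set l := limsup c atTop with hl
  have hl0 : 0 < l := limsup_pos
  -- choose η = δ
  obtain ⟨δ, hδ, hδl, hlog⟩ : ∃ δ : ℝ, 0 < δ ∧ δ < l ∧
      Real.log (l + δ) - Real.log (l - δ) ≤ ε / 2 := by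
    have hcont : Tendsto (fun δ : ℝ => Real.log (l + δ) - Real.log (l - δ)) (𝓝 0)
        (𝓝 (Real.log (l + 0) - Real.log (l - 0))) := by
      have h1 : ContinuousAt (fun δ : ℝ => Real.log (l + δ) - Real.log (l - δ)) 0 := by
        refine ContinuousAt.sub ?_ ?_
        · exact (continuousAt_const.add continuousAt_id).log (by
          show l + 0 ≠ 0
          rw [add_zero]; exact hl0.ne')
        · exact (continuousAt_const.sub continuousAt_id).log (by
          show l - 0 ≠ 0
          rw [sub_zero]; exact hl0.ne')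
      exact h1
    rw [add_zero, sub_zero, sub_self] at hcont
    have h2 : ∀ᶠ δ in 𝓝 (0 : ℝ), Real.log (l + δ) - Real.log (l - δ) < ε / 2 :=
      hcont.eventually_lt_const (by positivity)
    rw [Metric.eventually_nhds_iff] at h2
    obtain ⟨r, hr, h⟩ := h2
    refine ⟨min (r / 2) (l / 2), by positivity, ?_, ?_⟩
    · exact lt_of_le_of_lt (min_le_right _ _) (by linarith)
    · refine (h ?_).le
      rw [Real.dist_eq, sub_zero, abs_of_pos (by positivity)]
      exact lt_of_le_of_lt (min_le_left _ _) (by linarith)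
  obtain ⟨C, hC1, hC⟩ := gamma_pow_le hδ
  rw [← hl] at hC
  have hC0 : 0 < C := by linarith
  refine ⟨δ, hδ, ?_⟩
  have hlarge : ∀ᶠ n : ℕ in atTop, 2 * Real.log C ≤ ε / 2 * n := by
    have : Tendsto (fun n : ℕ => ε / 2 * (n : ℝ)) atTop atTop :=
      Tendsto.const_mul_atTop (by positivity) tendsto_natCast_atTop_atTop
    exact this.eventually_ge_atTop _
  filter_upwards [hlarge, eventually_gt_atTop 0] with n hn1 hn A k D hkn hD hinv hmain
  have hn0 : (0 : ℝ) < n := by exact_mod_cast hn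
  have hD0 : 0 < D := by linarith
  have hlδ : 0 < l - δ := by linarith
  have h1 : ((l - δ) * n) ^ n ≤ D ^ 2 * ((C * ((l + δ) * k) ^ k) *
      (C * ((l + δ) * ((n - k : ℕ) : ℝ)) ^ (n - k))) := by
    calc ((l - δ) * n) ^ n ≤ inv A ^ n := pow_le_pow_left₀ (by positivity) hinv n
      _ ≤ D ^ 2 * (gamma k ^ k * gamma (n - k) ^ (n - k)) := hmain
      _ ≤ _ := by
        refine mul_le_mul_of_nonneg_left ?_ (by positivity)
        refine mul_le_mul (hC k) (hC (n - k)) (pow_nonneg (gamma_nonneg _) _) (by positivity)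
  -- logs of the factors
  have hlogk : ∀ j : ℕ, ((l + δ) * (j : ℝ)) ^ j ≠ 0 ∧
      Real.log (((l + δ) * (j : ℝ)) ^ j) = j * Real.log (l + δ) + j * Real.log j := by
    intro j
    rcases Nat.eq_zero_or_pos j with rfl | hj
    · simp
    · have hj0 : (0 : ℝ) < j := by exact_mod_cast hj
      refine ⟨by positivity, ?_⟩
      rw [Real.log_pow, Real.log_mul (by positivity) hj0.ne']
      ring
  have h2 := Real.log_le_log (by positivity) h1
  rw [Real.log_pow, Real.log_mul hlδ.ne' hn0.ne',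
    Real.log_mul (by positivity) (mul_ne_zero (mul_ne_zero hC0.ne' (hlogk k).1)
      (mul_ne_zero hC0.ne' (hlogk (n - k)).1)),
    Real.log_mul (mul_ne_zero hC0.ne' (hlogk k).1) (mul_ne_zero hC0.ne' (hlogk (n - k)).1),
    Real.log_mul hC0.ne' (hlogk k).1, Real.log_mul hC0.ne' (hlogk (n - k)).1,
    (hlogk k).2, (hlogk (n - k)).2, Real.log_pow] at h2
  have h3 := mul_binEntropy hn hkn
  have h4 : ((n - k : ℕ) : ℝ) = n - k := Nat.cast_sub hkn
  push_cast at h2
  have h5 : (k : ℝ) * Real.log (l + δ) + ((n - k : ℕ) : ℝ) * Real.log (l + δ) =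
      n * Real.log (l + δ) := by rw [h4]; ring
  have h6 : (n : ℝ) * (Real.log (l + δ) - Real.log (l - δ)) ≤ n * (ε / 2) :=
    mul_le_mul_of_nonneg_left hlog hn0.le
  nlinarith [h2, h3, h5, h6, hn1]

/-- The entropy is larger than `2 min(a,1-a) log 2` away from `0`, `1/2`, `1`. -/
lemma binEntropy_gap (ε : ℝ) (hε : 0 < ε) : ∃ μ : ℝ, 0 < μ ∧ ∀ a : ℝ, ε ≤ a → a ≤ 1 - ε →
    ε ≤ |a - 1 / 2| → 2 * min a (1 - a) * Real.log 2 + μ ≤ Real.binEntropy a := by
  set K : Set ℝ := {a : ℝ | ε ≤ a ∧ a ≤ 1 - ε ∧ ε ≤ |a - 1 / 2|} with hK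
  have hKc : IsCompact K := by
    refine Metric.isCompact_of_isClosed_isBounded ?_ ?_
    · refine IsClosed.inter (isClosed_le continuous_const continuous_id) ?_
      refine IsClosed.inter (isClosed_le continuous_id continuous_const) ?_
      exact isClosed_le continuous_const ((continuous_id.sub continuous_const).abs)
    · exact (Metric.isBounded_Icc ε (1 - ε)).subset fun a ha => ⟨ha.1, ha.2.1⟩
  let F : ℝ → ℝ := fun a => Real.binEntropy a - 2 * min a (1 - a) * Real.log 2
  have hF : Continuous F := by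
    refine Real.binEntropy_continuous.sub ?_
    exact (continuous_const.mul (continuous_id.min (continuous_const.sub continuous_id))).mul
      continuous_const
  have hhalf : ∀ a : ℝ, 0 < a → a < 1 / 2 → 2 * a * Real.log 2 < Real.binEntropy a := by
    intro a ha0 ha1
    have hx : (0 : ℝ) ∈ Set.Icc (0 : ℝ) 1 := by constructor <;> norm_num
    have hy : (1 / 2 : ℝ) ∈ Set.Icc (0 : ℝ) 1 := by constructor <;> norm_num
    have h1 := Real.strictConcave_binEntropy.2 hx hy (by norm_num)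
      (show (0 : ℝ) < 1 - 2 * a by linarith) (show (0 : ℝ) < 2 * a by linarith) (by ring)
    simp only [smul_eq_mul, mul_zero, zero_add, Real.binEntropy_zero] at h1
    have h2 : (2 * a * (1 / 2) : ℝ) = a := by ring
    have h3 : Real.binEntropy (1 / 2) = Real.log 2 := by
      rw [one_div]; exact Real.binEntropy_two_inv
    rw [h2, h3] at h1
    exact h1
  have hFpos : ∀ a ∈ K, 0 < F a := by
    rintro a ⟨h1, h2, h3⟩
    show 0 < Real.binEntropy a - 2 * min a (1 - a) * Real.log 2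
    rcases lt_trichotomy a (1 / 2) with h | h | h
    · rw [min_eq_left (by linarith)]
      linarith [hhalf a (by linarith) h]
    · exfalso
      rw [h] at h3
      simp at h3
      linarith
    · rw [min_eq_right (by linarith)]
      have := hhalf (1 - a) (by linarith) (by linarith)
      rw [Real.binEntropy_one_sub] at this
      linarith
  rcases K.eq_empty_or_nonempty with hem | hne
  · refine ⟨1, one_pos, fun a h1 h2 h3 => ?_⟩
    exact absurd (show a ∈ K from ⟨h1, h2, h3⟩) (by rw [hem]; exact Set.notMem_empty a)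
  · obtain ⟨a0, ha0, hmin⟩ := hKc.exists_isMinOn hne hF.continuousOn
    refine ⟨F a0, hFpos a0 ha0, fun a h1 h2 h3 => ?_⟩
    have := hmin (show a ∈ K from ⟨h1, h2, h3⟩)
    have h4 : F a0 ≤ F a := this
    have h5 : F a = Real.binEntropy a - 2 * min a (1 - a) * Real.log 2 := rfl
    linarith

end Pool.Agent.Lib.MP_ef2672_gt_Sym
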