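import Pool.Agent.Lib.MP_ef2672_gt_Sym.Final

/-!
A criterion for divergence: nearly optimal lattices with forbidden symmetries.
-/

namespace Pool.Agent.Lib.MP_ef2672_gt_Sym

open Pool.Agent.Lib.MP_ef2672_gt_Tauber Filter Topology

/-- If `γ_n/n` converges, then lattices nearly optimal in their dimension are nearly optimal with
respect to the limit superior. -/
lemma near_of_tendsto {l : ℝ} (h : Tendsto c atTop (𝓝 l)) {δ : ℝ} (hδ : 0 < δ) :
    ∀ᶠ n : ℕ in atTop, ∀ A : Matrix (Fin n) (Fin n) ℝ, (1 - δ / 2) * gamma n ≤ inv A →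
      (limsup c atTop - δ) * n ≤ inv A := by
  have hl : limsup c atTop = l := h.limsup_eq
  have h1 : ∀ᶠ n in atTop, l - δ / 2 < c n := h.eventually_const_lt (by linarith)
  filter_upwards [h1, eventually_gt_atTop 0] with n hn hn0 A hA
  have hn0' : (0 : ℝ) < n := by exact_mod_cast hn0
  have hc1 := c_le_one n
  rw [hl]
  refine le_trans ?_ hA
  have h2 : gamma n = c n * n := by unfold c; field_simp
  rw [h2, ← mul_assoc]
  refine mul_le_mul_of_nonneg_right ?_ hn0'.le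
  nlinarith

theorem divergence_criterion (ε : ℝ) (hε : 0 < ε) : ∃ δ : ℝ, 0 < δ ∧
    ((∃ᶠ n : ℕ in atTop, ∃ (p : ℕ) (A : Matrix (Fin n) (Fin n) ℝ) (U : Matrix (Fin n) (Fin n) ℤ),
      p.Prime ∧ A.det ≠ 0 ∧ U ^ p = 1 ∧ IsIsometry A U ∧ (1 - δ) * gamma n ≤ inv A ∧
      2 * min ((fixedRank U : ℝ) / n) ((1 - (fixedRank U : ℝ) / n) / (p - 1)) * Real.log p + ε <
        Real.binEntropy ((fixedRank U : ℝ) / n)) →
    ¬ ∃ l : ℝ, Tendsto c atTop (𝓝 l)) := by
  obtain ⟨δ, hδ, h⟩ := isometry_entropy ε hε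
  refine ⟨δ / 2, by positivity, ?_⟩
  rintro hfreq ⟨l, hl⟩
  obtain ⟨n, ⟨p, A, U, hp, hA, hU, hiso, hopt, h1⟩, h4, h5⟩ :=
    (hfreq.and_eventually (h.and (near_of_tendsto hl hδ))).exists
  exact absurd (h4 p A U hp hA hU hiso (h5 A hopt)) (not_le.2 h1)

end Pool.Agent.Lib.MP_ef2672_gt_Sym
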