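import Pool.Agent.Lib.MP_ef2672_gt_Sym.Asymp

/-!
Orthogonal splittings and isometries of prime order of near-optimal lattices.
-/

namespace Pool.Agent.Lib.MP_ef2672_gt_Sym

open Pool.Agent.Lib.MP_ef2672_gt_Tauber Filter Topology

/-- `U` acts as an isometry of the lattice `A ℤⁿ`: `|A U w| = |A w|` for all `w`, written with
Gram matrices. -/
def IsIsometry {n : ℕ} (A : Matrix (Fin n) (Fin n) ℝ) (U : Matrix (Fin n) (Fin n) ℤ) : Prop :=
  (A * U.map (Int.cast : ℤ → ℝ)).transpose * (A * U.map (Int.cast : ℤ → ℝ)) = A.transpose * A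

/-- The rank of the lattice of integer vectors fixed by `U`, that is, `n` minus the rank of the
integer matrix `U - 1`. -/
noncomputable def fixedRank {n : ℕ} (U : Matrix (Fin n) (Fin n) ℤ) : ℕ := n - (U - 1).rank

lemma fixedRank_eq {n : ℕ} (U : Matrix (Fin n) (Fin n) ℤ) :
    Module.finrank ℤ (LinearMap.ker (Matrix.toLin' U - 1)) = fixedRank U := by
  have h1 := Submodule.finrank_quotient_add_finrank (LinearMap.ker (Matrix.toLin' U - 1))
  rw [Module.finrank_fin_fun, (Matrix.toLin' U - 1).quotKerEquivRange.finrank_eq] at h1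
  have h2 : Matrix.toLin' U - 1 = (U - 1).mulVecLin := by
    rw [← Matrix.toLin'_apply', map_sub, Matrix.toLin'_one]
    rfl
  have h3 : (U - 1).rank = Module.finrank ℤ (LinearMap.range (Matrix.toLin' U - 1)) := by
    rw [h2]; rfl
  unfold fixedRank
  omega

lemma prod_fin_two {n : ℕ} (f : Fin n → Fin 2) {k m : ℕ}
    (hk : Fintype.card {i // f i = 0} = k) (hm : Fintype.card {i // f i = 1} = m) :
    ∏ s : Fin 2, gamma (Fintype.card {i // f i = s}) ^ Fintype.card {i // f i = s} =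
      gamma k ^ k * gamma m ^ m := by
  rw [Fin.prod_univ_two, hk, hm]

/-- Data of a splitting by an isometry of prime order. -/
lemma exists_index {n p : ℕ} (hn : 0 < n) (hp : p.Prime) (A : Matrix (Fin n) (Fin n) ℝ)
    (hA : A.det ≠ 0) (U : Matrix (Fin n) (Fin n) ℤ) (hU : U ^ p = 1) (hiso : IsIsometry A U) :
    fixedRank U ≤ n ∧ ∃ D : ℝ, 1 ≤ D ∧
      Real.log D ≤ min (fixedRank U : ℝ) (((n : ℝ) - fixedRank U) / (p - 1)) * Real.log p ∧
      inv A ^ n ≤ D ^ 2 * (gamma (fixedRank U) ^ (fixedRank U) *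
        gamma (n - fixedRank U) ^ (n - fixedRank U)) := by
  obtain ⟨hkn, B, f, hB, hc0, hc1, horth, hd1, hd2⟩ :=
    exists_splitting hp A U hU hiso (fixedRank U) (fixedRank_eq U)
  refine ⟨hkn, (B.det.natAbs : ℝ), ?_, ?_, ?_⟩
  · exact_mod_cast Int.natAbs_pos.2 hB
  · have hpos : 0 < B.det.natAbs := Int.natAbs_pos.2 hB
    have hpos' : (0 : ℝ) < B.det.natAbs := by exact_mod_cast hpos
    have hp1 : (1 : ℝ) < p := by exact_mod_cast hp.one_lt
    have hlogp : 0 < Real.log p := Real.log_pos hp1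
    have h1 : Real.log (B.det.natAbs : ℝ) ≤ (fixedRank U : ℝ) * Real.log p := by
      have h2 : B.det.natAbs ≤ p ^ fixedRank U := Nat.le_of_dvd (pow_pos hp.pos _) hd1
      have h3 : (B.det.natAbs : ℝ) ≤ (p : ℝ) ^ fixedRank U := by exact_mod_cast h2
      have h4 := Real.log_le_log hpos' h3
      rwa [Real.log_pow] at h4
    have h2 : Real.log (B.det.natAbs : ℝ) ≤
        (((n : ℝ) - fixedRank U) / (p - 1)) * Real.log p := by
      have h2 : B.det.natAbs ^ (p - 1) ≤ p ^ (n - fixedRank U) :=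
        Nat.le_of_dvd (pow_pos hp.pos _) hd2
      have h3 : (B.det.natAbs : ℝ) ^ (p - 1) ≤ (p : ℝ) ^ (n - fixedRank U) := by exact_mod_cast h2
      have h4 := Real.log_le_log (by positivity) h3
      rw [Real.log_pow, Real.log_pow, Nat.cast_sub hp.one_le, Nat.cast_sub hkn, Nat.cast_one] at h4
      rw [div_mul_eq_mul_div, le_div_iff₀ (by linarith)]
      linarith
    rw [min_mul_of_nonneg _ _ hlogp.le]
    exact le_min h1 h2
  · have h1 := prod_le hn A hA B hB f horth
    rw [prod_fin_two f hc0 hc1] at h1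
    have h2 : ((B.det.natAbs : ℝ)) ^ 2 = (B.det : ℝ) ^ 2 := by
      rw [Nat.cast_natAbs, Int.cast_abs, sq_abs]
    rw [h2]
    exact h1

/-- The exact inequality for isometries of prime order. -/
theorem isometry_le {n p : ℕ} (hn : 0 < n) (hp : p.Prime) (A : Matrix (Fin n) (Fin n) ℝ)
    (hA : A.det ≠ 0) (U : Matrix (Fin n) (Fin n) ℤ) (hU : U ^ p = 1) (hiso : IsIsometry A U) :
    inv A ^ n ≤ (p : ℝ) ^ (2 * min (fixedRank U : ℝ) (((n : ℝ) - fixedRank U) / (p - 1))) *
      (gamma (fixedRank U) ^ (fixedRank U) *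
        gamma (n - fixedRank U) ^ (n - fixedRank U)) := by
  obtain ⟨hkn, D, hD1, hD2, hmain⟩ := exists_index hn hp A hA U hU hiso
  refine hmain.trans ?_
  refine mul_le_mul_of_nonneg_right ?_ (mul_nonneg (pow_nonneg (gamma_nonneg _) _)
    (pow_nonneg (gamma_nonneg _) _))
  have hD0 : 0 < D := by linarith
  have hp0 : (0 : ℝ) < p := by exact_mod_cast hp.pos
  rw [← Real.exp_log (pow_pos hD0 2), Real.log_pow, Real.rpow_def_of_pos hp0]
  refine Real.exp_le_exp.2 ?_
  push_cast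
  linarith

theorem isometry_entropy (ε : ℝ) (hε : 0 < ε) : ∃ δ : ℝ, 0 < δ ∧ ∀ᶠ n : ℕ in atTop,
    ∀ (p : ℕ) (A : Matrix (Fin n) (Fin n) ℝ) (U : Matrix (Fin n) (Fin n) ℤ),
      p.Prime → A.det ≠ 0 → U ^ p = 1 → IsIsometry A U →
      (limsup c atTop - δ) * n ≤ inv A →
      Real.binEntropy ((fixedRank U : ℝ) / n) ≤
        2 * min ((fixedRank U : ℝ) / n) ((1 - (fixedRank U : ℝ) / n) / (p - 1)) * Real.log p + ε := by
  obtain ⟨δ, hδ, h⟩ := entropy_le ε hε
  refine ⟨δ, hδ, ?_⟩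
  filter_upwards [h, eventually_gt_atTop 0] with n h hn p A U hp hA hU hiso hinv
  have hn0 : (0 : ℝ) < n := by exact_mod_cast hn
  obtain ⟨hkn, D, hD1, hD2, hmain⟩ := exists_index hn hp A hA U hU hiso
  have h1 := h A (fixedRank U) D hkn hD1 hinv hmain
  have h2 : min (fixedRank U : ℝ) (((n : ℝ) - fixedRank U) / (p - 1)) =
      n * min ((fixedRank U : ℝ) / n) ((1 - (fixedRank U : ℝ) / n) / (p - 1)) := by
    rw [mul_min_of_nonneg _ _ hn0.le]
    congr 1
    · field_simp
    · field_simp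
  rw [h2] at hD2
  have h3 : (n : ℝ) * (Real.binEntropy ((fixedRank U : ℝ) / n) - ε) ≤
      n * (2 * min ((fixedRank U : ℝ) / n) ((1 - (fixedRank U : ℝ) / n) / (p - 1)) *
        Real.log p) := by
    refine h1.trans ?_
    linarith
  have h4 := le_of_mul_le_mul_left h3 hn0
  linarith

theorem involution_trichotomy (ε : ℝ) (hε : 0 < ε) : ∃ δ : ℝ, 0 < δ ∧ ∀ᶠ n : ℕ in atTop,
    ∀ (A : Matrix (Fin n) (Fin n) ℝ) (U : Matrix (Fin n) (Fin n) ℤ),
      A.det ≠ 0 → U ^ 2 = 1 → IsIsometry A U →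
      (limsup c atTop - δ) * n ≤ inv A →
      (fixedRank U : ℝ) ≤ ε * n ∨ |(fixedRank U : ℝ) - n / 2| ≤ ε * n ∨
        (1 - ε) * n ≤ (fixedRank U : ℝ) := by
  obtain ⟨μ, hμ, hgap⟩ := binEntropy_gap ε hε
  obtain ⟨δ, hδ, h⟩ := isometry_entropy (μ / 2) (by positivity)
  refine ⟨δ, hδ, ?_⟩
  filter_upwards [h, eventually_gt_atTop 0] with n h hn A U hA hU hiso hinv
  have hn0 : (0 : ℝ) < n := by exact_mod_cast hn
  have h1 := h 2 A U Nat.prime_two hA hU hiso hinv
  by_contra hcon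
  push Not at hcon
  obtain ⟨c1, c2, c3⟩ := hcon
  have h2 := hgap ((fixedRank U : ℝ) / n) ?_ ?_ ?_
  · push_cast at h1
    have h3 : ((2 : ℝ) - 1) = 1 := by norm_num
    rw [h3, div_one] at h1
    linarith
  · rw [le_div_iff₀ hn0]; exact c1.le
  · rw [div_le_iff₀ hn0]; exact c3.le
  · have h3 : (fixedRank U : ℝ) / n - 1 / 2 = ((fixedRank U : ℝ) - n / 2) / n := by field_simp
    rw [h3, abs_div, abs_of_pos hn0, le_div_iff₀ hn0]
    exact c2.le

/-- The index of an orthogonal splitting of a near-optimal lattice. -/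
theorem splitting_entropy (ε : ℝ) (hε : 0 < ε) : ∃ δ : ℝ, 0 < δ ∧ ∀ᶠ n : ℕ in atTop,
    ∀ (A : Matrix (Fin n) (Fin n) ℝ) (B : Matrix (Fin n) (Fin n) ℤ) (S : Finset (Fin n)),
      A.det ≠ 0 → B.det ≠ 0 →
      (∀ i ∈ S, ∀ j ∉ S, ((A * B.map (Int.cast : ℤ → ℝ)).transpose *
        (A * B.map (Int.cast : ℤ → ℝ))) i j = 0) →
      (limsup c atTop - δ) * n ≤ inv A →
      Real.exp (n * (Real.binEntropy ((S.card : ℝ) / n) / 2 - ε)) ≤ |(B.det : ℝ)| := by
  obtain ⟨δ, hδ, h⟩ := entropy_le (2 * ε) (by positivity)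
  refine ⟨δ, hδ, ?_⟩
  filter_upwards [h, eventually_gt_atTop 0] with n h hn A B S hA hB horth hinv
  classical
  let f : Fin n → Fin 2 := fun i => if i ∈ S then 0 else 1
  have hf0 : ∀ i, f i = 0 ↔ i ∈ S := by
    intro i
    simp only [f]
    split_ifs with hi <;> simp [hi]
  have hf1 : ∀ i, f i = 1 ↔ i ∉ S := by
    intro i
    simp only [f]
    split_ifs with hi <;> simp [hi]
  have hc0 : Fintype.card {i // f i = 0} = S.card := by
    rw [Fintype.card_subtype]
    congr 1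
    ext i
    simp [hf0]
  have hc1 : Fintype.card {i // f i = 1} = n - S.card := by
    rw [Fintype.card_subtype]
    have : (Finset.univ.filter fun i => f i = 1) = Sᶜ := by
      ext i
      simp [hf1]
    rw [this, Finset.card_compl, Fintype.card_fin]
  have hsym : ∀ i j, ((A * B.map (Int.cast : ℤ → ℝ)).transpose *
        (A * B.map (Int.cast : ℤ → ℝ))) i j = ((A * B.map (Int.cast : ℤ → ℝ)).transpose *
        (A * B.map (Int.cast : ℤ → ℝ))) j i := by
    intro i j
    simp only [Matrix.mul_apply, Matrix.transpose_apply]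
    exact Finset.sum_congr rfl fun x _ => mul_comm _ _
  have horth' : ∀ i j, f i ≠ f j → ((A * B.map (Int.cast : ℤ → ℝ)).transpose *
        (A * B.map (Int.cast : ℤ → ℝ))) i j = 0 := by
    intro i j hij
    by_cases hi : i ∈ S
    · by_cases hj : j ∈ S
      · exact absurd (((hf0 i).2 hi).trans ((hf0 j).2 hj).symm) hij
      · exact horth i hi j hj
    · by_cases hj : j ∈ S
      · rw [hsym]; exact horth j hj i hi
      · exact absurd (((hf1 i).2 hi).trans ((hf1 j).2 hj).symm) hij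
  have h1 := prod_le hn A hA B hB f horth'
  rw [prod_fin_two f hc0 hc1] at h1
  have hB1 : (1 : ℝ) ≤ |(B.det : ℝ)| := by
    have := Int.one_le_abs hB
    exact_mod_cast this
  have h2 := h A S.card |(B.det : ℝ)| (by simpa using Finset.card_le_univ S) hB1 hinv
    (by rw [sq_abs]; exact h1)
  rw [← Real.le_log_iff_exp_le (by linarith)]
  linarith

end Pool.Agent.Lib.MP_ef2672_gt_Sym
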