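import Pool.Agent.Lib.MP_ef2672_gt_Tauber.Upper

/-!
Gram matrices and Hermite's constant; orthogonal splittings of lattices.
-/

namespace Pool.Agent.Lib.MP_ef2672_gt_Sym

open Pool.Agent.Lib.MP_ef2672_gt_Tauber

/-- A positive semidefinite form with nonzero determinant whose values at nonzero integer vectors
are at least `m` satisfies Hermite's inequality. -/
lemma gram_le_fin {k : ℕ} (G : Matrix (Fin k) (Fin k) ℝ) (hG : G.PosSemidef) (hdet : G.det ≠ 0)
    {m : ℝ} (hm0 : 0 ≤ m)
    (hm : ∀ w : Fin k → ℤ, w ≠ 0 →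
      m ≤ dotProduct (fun j => (w j : ℝ)) (G.mulVec (fun j => (w j : ℝ)))) :
    m ^ k ≤ gamma k ^ k * G.det := by
  rcases Nat.eq_zero_or_pos k with rfl | hk
  · simp
  obtain ⟨C, rfl⟩ : ∃ C : Matrix (Fin k) (Fin k) ℝ, G = C.conjTranspose * C := by
    open scoped MatrixOrder ComplexOrder in
    obtain ⟨C, hC⟩ := CStarAlgebra.nonneg_iff_eq_star_mul_self.mp hG.nonneg
    exact ⟨C, hC⟩
  rw [Matrix.conjTranspose_eq_transpose_of_trivial] at *
  have hdetC : (C.transpose * C).det = |C.det| ^ 2 := by
    rw [Matrix.det_mul, Matrix.det_transpose, sq_abs, sq]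
  have hC0 : C.det ≠ 0 := by
    intro h
    apply hdet
    rw [hdetC, h]
    simp
  have hmin : m ≤ minSq C := by
    refine le_minSq hk C fun w hw => ?_
    refine (hm w hw).trans (le_of_eq ?_)
    rw [← Matrix.mulVec_mulVec, Matrix.dotProduct_mulVec, Matrix.vecMul_transpose]
    simp only [dotProduct]
    exact Finset.sum_congr rfl fun i _ => (sq _).symm
  have h1 := inv_le_gamma hk C hC0
  have hpos : 0 < |C.det| := abs_pos.2 hC0
  unfold inv at h1
  rw [div_le_iff₀ (Real.rpow_pos_of_pos hpos _)] at h1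
  have hk0 : (k : ℝ) ≠ 0 := by exact_mod_cast hk.ne'
  calc m ^ k ≤ (gamma k * |C.det| ^ ((2 : ℝ) / k)) ^ k :=
        pow_le_pow_left₀ hm0 (hmin.trans h1) k
    _ = gamma k ^ k * |C.det| ^ 2 := by
        rw [mul_pow]
        congr 1
        rw [← Real.rpow_natCast, ← Real.rpow_mul hpos.le, ← Real.rpow_natCast]
        congr 1
        push_cast
        field_simp
    _ = gamma k ^ k * (C.transpose * C).det := by rw [hdetC]

lemma gram_le {ι : Type*} [Fintype ι] [DecidableEq ι] (G : Matrix ι ι ℝ) (hG : G.PosSemidef)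
    (hdet : G.det ≠ 0) {m : ℝ} (hm0 : 0 ≤ m)
    (hm : ∀ w : ι → ℤ, w ≠ 0 →
      m ≤ dotProduct (fun j => (w j : ℝ)) (G.mulVec (fun j => (w j : ℝ)))) :
    m ^ Fintype.card ι ≤ gamma (Fintype.card ι) ^ Fintype.card ι * G.det := by
  let e := Fintype.equivFin ι
  have h := gram_le_fin (G.submatrix e.symm e.symm) (hG.submatrix _)
    (by rwa [Matrix.det_submatrix_equiv_self]) hm0 (fun w hw => ?_)
  · rwa [Matrix.det_submatrix_equiv_self] at h
  · have h2 := hm (fun i => w (e i)) (fun h0 => hw (by
      ext j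
      have := congrFun h0 (e.symm j)
      simpa using this))
    refine h2.trans (le_of_eq ?_)
    simp only [dotProduct, Matrix.mulVec, Matrix.submatrix_apply]
    rw [← e.symm.sum_comp]
    refine Finset.sum_congr rfl fun i _ => ?_
    rw [← e.symm.sum_comp]
    simp

/-- A system of integer vectors, split in mutually orthogonal groups. -/
theorem prod_le {n r : ℕ} (hn : 0 < n) (A : Matrix (Fin n) (Fin n) ℝ) (hA : A.det ≠ 0)
    (B : Matrix (Fin n) (Fin n) ℤ) (hB : B.det ≠ 0) (f : Fin n → Fin r)
    (horth : ∀ i j, f i ≠ f j →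
      ((A * B.map (Int.cast : ℤ → ℝ)).transpose * (A * B.map (Int.cast : ℤ → ℝ))) i j = 0) :
    inv A ^ n ≤ (B.det : ℝ) ^ 2 *
      ∏ s : Fin r, gamma (Fintype.card {i // f i = s}) ^ Fintype.card {i // f i = s} := by
  classical
  set D : Matrix (Fin n) (Fin n) ℝ := A * B.map (Int.cast : ℤ → ℝ) with hD
  set G : Matrix (Fin n) (Fin n) ℝ := D.transpose * D with hG
  have hBdet : (B.map (Int.cast : ℤ → ℝ)).det = (B.det : ℝ) := (Int.cast_det B).symm
  have hDdet : D.det = A.det * B.det := by rw [hD, Matrix.det_mul, hBdet]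
  have hGdet : G.det = A.det ^ 2 * (B.det : ℝ) ^ 2 := by
    rw [hG, Matrix.det_mul, Matrix.det_transpose, hDdet]; ring
  have hB0 : (B.det : ℝ) ≠ 0 := by exact_mod_cast hB
  have hGdet0 : G.det ≠ 0 := by rw [hGdet]; positivity
  have hpsd : G.PosSemidef := by
    have := Matrix.posSemidef_conjTranspose_mul_self D
    rwa [Matrix.conjTranspose_eq_transpose_of_trivial] at this
  have hquad : ∀ w : Fin n → ℤ, dotProduct (fun j => (w j : ℝ)) (G.mulVec (fun j => (w j : ℝ))) =
      ∑ i, (Matrix.mulVec A (fun j => ((B.mulVec w) j : ℝ))) i ^ 2 := by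
    intro w
    rw [hG, ← Matrix.mulVec_mulVec, Matrix.dotProduct_mulVec, Matrix.vecMul_transpose]
    have : D.mulVec (fun j => (w j : ℝ)) = A.mulVec (fun j => ((B.mulVec w) j : ℝ)) := by
      rw [hD, ← Matrix.mulVec_mulVec]
      congr 1
      ext i
      simp [Matrix.mulVec, dotProduct]
    rw [this]
    simp only [dotProduct]
    exact Finset.sum_congr rfl fun i _ => (sq _).symm
  have hBinj : ∀ w : Fin n → ℤ, w ≠ 0 → B.mulVec w ≠ 0 := by
    intro w hw h0
    exact hw (Matrix.eq_zero_of_mulVec_eq_zero hB h0)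
  -- block decomposition
  have hblock : G.BlockTriangular f := by
    intro i j hij
    exact horth i j hij.ne'
  have hdetprod : G.det = ∏ s : Fin r, (G.toSquareBlock f s).det := hblock.det_fintype
  have hblk : ∀ s : Fin r, minSq A ^ Fintype.card {i // f i = s} ≤
      gamma (Fintype.card {i // f i = s}) ^ Fintype.card {i // f i = s} *
        (G.toSquareBlock f s).det := by
    intro s
    refine gram_le _ (hpsd.submatrix _) ?_ (minSq_nonneg A) ?_
    · intro h0
      apply hGdet0
      rw [hdetprod]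
      exact Finset.prod_eq_zero (Finset.mem_univ s) h0
    · intro w hw
      set w' : Fin n → ℤ := fun i => if h : f i = s then w ⟨i, h⟩ else 0 with hw'
      have hw'0 : w' ≠ 0 := by
        intro h0
        apply hw
        ext ⟨i, hi⟩
        have := congrFun h0 i
        simpa [hw', hi] using this
      refine (minSq_le A _ (hBinj w' hw'0)).trans ((le_of_eq (hquad w').symm).trans (le_of_eq ?_))
      -- sums supported on the block
      have key : ∀ F : Fin n → ℝ, (∀ i, f i ≠ s → F i = 0) →
          ∑ i, F i = ∑ i : {i // f i = s}, F i.1 := by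
        intro F hF
        rw [← Finset.sum_subtype (Finset.univ.filter fun i => f i = s) (by simp) F,
          Finset.sum_filter]
        refine Finset.sum_congr rfl fun i _ => ?_
        split_ifs with h
        · rfl
        · exact hF i h
      have hw1 : ∀ i, f i ≠ s → w' i = 0 := fun i hi => by simp [hw', hi]
      have hw2 : ∀ i : {i // f i = s}, w' i.1 = w i := fun i => by simp [hw', i.2]
      simp only [dotProduct, Matrix.mulVec, Matrix.submatrix_apply]
      rw [key _ (fun i hi => by rw [hw1 i hi]; simp)]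
      refine Finset.sum_congr rfl fun i _ => ?_
      rw [hw2 i, key _ (fun j hj => by rw [hw1 j hj]; simp)]
      congr 1
      refine Finset.sum_congr rfl fun j _ => ?_
      rw [hw2 j]
  have hcard : ∑ s : Fin r, Fintype.card {i // f i = s} = n := by
    have h1 : Fintype.card (Fin n) = ∑ s : Fin r, Fintype.card {i // f i = s} := by
      rw [← Fintype.card_sigma]
      exact Fintype.card_congr (Equiv.sigmaFiberEquiv f).symm
    rw [← h1, Fintype.card_fin]
  have hmain : minSq A ^ n ≤ (∏ s : Fin r, gamma (Fintype.card {i // f i = s}) ^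
      Fintype.card {i // f i = s}) * G.det := by
    calc minSq A ^ n = ∏ s : Fin r, minSq A ^ Fintype.card {i // f i = s} := by
          rw [Finset.prod_pow_eq_pow_sum, hcard]
      _ ≤ ∏ s : Fin r, (gamma (Fintype.card {i // f i = s}) ^ Fintype.card {i // f i = s} *
            (G.toSquareBlock f s).det) :=
          Finset.prod_le_prod (fun s _ => pow_nonneg (minSq_nonneg A) _) fun s _ => hblk s
      _ = _ := by rw [Finset.prod_mul_distrib, ← hdetprod]
  have hA0 : 0 < |A.det| := abs_pos.2 hA
  have hn0 : (n : ℝ) ≠ 0 := by exact_mod_cast hn.ne'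
  unfold inv
  rw [div_pow]
  have hden : (|A.det| ^ ((2 : ℝ) / n)) ^ n = A.det ^ 2 := by
    rw [← Real.rpow_natCast, ← Real.rpow_mul hA0.le, ← sq_abs A.det, ← Real.rpow_natCast]
    congr 1
    push_cast
    field_simp
  rw [hden, div_le_iff₀ (by positivity)]
  refine hmain.trans (le_of_eq ?_)
  rw [hGdet]
  ring

end Pool.Agent.Lib.MP_ef2672_gt_Sym
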