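import Pool.Agent.Lib.MP_ef2672_gt_Sym.Criterion

/-!
The statements in short form.
-/

namespace Pool.Agent.Lib.MP_ef2672_gt_Sym

open Pool.Agent.Lib.MP_ef2672_gt_Tauber Filter Topology

/-- `p` is prime, `A` is invertible and `U` is an isometry of the lattice `A ℤⁿ` with `U^p = 1`. -/
def PrimeIsometry {n : ℕ} (p : ℕ) (A : Matrix (Fin n) (Fin n) ℝ) (U : Matrix (Fin n) (Fin n) ℤ) :
    Prop :=
  p.Prime ∧ A.det ≠ 0 ∧ U ^ p = 1 ∧ IsIsometry A U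

/-- `H(k/n) - 2 min(k/n, (1-k/n)/(p-1)) log p` with the natural entropy function `H`. -/
noncomputable def entropyGap (n p k : ℕ) : ℝ :=
  Real.binEntropy ((k : ℝ) / n) - 2 * min ((k : ℝ) / n) ((1 - (k : ℝ) / n) / (p - 1)) * Real.log p

/-- The bound `p^(2 min(k,(n-k)/(p-1))) γ_k^k γ_(n-k)^(n-k)`. -/
noncomputable def splitBound (n p k : ℕ) : ℝ :=
  (p : ℝ) ^ (2 * min (k : ℝ) (((n : ℝ) - k) / (p - 1))) * (gamma k ^ k * gamma (n - k) ^ (n - k))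

theorem short_exact {n : ℕ} (p : ℕ) (A : Matrix (Fin n) (Fin n) ℝ)
    (U : Matrix (Fin n) (Fin n) ℤ) (hn : 0 < n) (h : PrimeIsometry p A U) :
    inv A ^ n ≤ splitBound n p (fixedRank U) :=
  isometry_le hn h.1 A h.2.1 U h.2.2.1 h.2.2.2

theorem short_entropy (ε : ℝ) (hε : 0 < ε) : ∃ δ : ℝ, 0 < δ ∧ ∀ᶠ n : ℕ in atTop,
    ∀ (p : ℕ) (A : Matrix (Fin n) (Fin n) ℝ) (U : Matrix (Fin n) (Fin n) ℤ),
      PrimeIsometry p A U → (limsup c atTop - δ) * n ≤ inv A →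
      entropyGap n p (fixedRank U) ≤ ε := by
  obtain ⟨δ, hδ, h⟩ := isometry_entropy ε hε
  refine ⟨δ, hδ, ?_⟩
  filter_upwards [h] with n h p A U hU hA
  have := h p A U hU.1 hU.2.1 hU.2.2.1 hU.2.2.2 hA
  unfold entropyGap
  linarith

theorem short_trichotomy (ε : ℝ) (hε : 0 < ε) : ∃ δ : ℝ, 0 < δ ∧ ∀ᶠ n : ℕ in atTop,
    ∀ (A : Matrix (Fin n) (Fin n) ℝ) (U : Matrix (Fin n) (Fin n) ℤ),
      PrimeIsometry 2 A U → (limsup c atTop - δ) * n ≤ inv A →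
      (fixedRank U : ℝ) ≤ ε * n ∨ |(fixedRank U : ℝ) - n / 2| ≤ ε * n ∨
        (1 - ε) * n ≤ (fixedRank U : ℝ) := by
  obtain ⟨δ, hδ, h⟩ := involution_trichotomy ε hε
  refine ⟨δ, hδ, ?_⟩
  filter_upwards [h] with n h A U hU hA
  exact h A U hU.2.1 hU.2.2.1 hU.2.2.2 hA

theorem short_criterion (ε : ℝ) (hε : 0 < ε) : ∃ δ : ℝ, 0 < δ ∧
    ((∃ᶠ n : ℕ in atTop, ∃ (p : ℕ) (A : Matrix (Fin n) (Fin n) ℝ) (U : Matrix (Fin n) (Fin n) ℤ),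
      PrimeIsometry p A U ∧ (1 - δ) * gamma n ≤ inv A ∧ ε < entropyGap n p (fixedRank U)) →
    ¬ ∃ l : ℝ, Tendsto c atTop (𝓝 l)) := by
  obtain ⟨δ, hδ, h⟩ := divergence_criterion ε hε
  refine ⟨δ, hδ, fun hfreq => h (hfreq.mono ?_)⟩
  rintro n ⟨p, A, U, hU, hA, hgap⟩
  refine ⟨p, A, U, hU.1, hU.2.1, hU.2.2.1, hU.2.2.2, hA, ?_⟩
  unfold entropyGap at hgap
  linarith

end Pool.Agent.Lib.MP_ef2672_gt_Sym
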